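import Pool.Agent.W_mrdp_h82.Atoms

/-!
# R.e. predicates by pairing equations with comparisons

Every r.e. predicate is given by a finite system of equations
`f l = T (f i + f j) + f i` with a comparison `f k <= f j` or `f k < f j`; the system has two
variables `a`, `b` with `f b = f a + f 0`, and in a suitable solution no variable lies strictly
between them.
-/

namespace Pool.Agent.W_59b51d_h42

/-- triangular numbers -/
def tri : ℕ → ℕ
  | 0 => 0
  | s + 1 => tri s + (s + 1)

theorem tri_mono {s t : ℕ} (h : s ≤ t) : tri s ≤ tri t := by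
  induction h with
  | refl => exact le_rfl
  | step _ ih => exact ih.trans (by simp [tri])

theorem le_tri (s : ℕ) : s ≤ tri s := by
  cases s with
  | zero => exact Nat.zero_le _
  | succ s => simp [tri]

theorem tri_add (x y : ℕ) : tri (x + y) = tri x + tri y + x * y := by
  induction y with
  | zero => simp [tri]
  | succ y ih =>
    rw [← add_assoc, tri, ih, tri, Nat.mul_succ]
    ring

/-- an equation `f l = T (f i + f j) + f i` with a comparison of `f k` and `f j` -/
structure Eqn where
  i : ℕ
  j : ℕ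
  l : ℕ
  k : ℕ
  strict : Bool

/-- truth of an equation -/
def Eqn.holds (f : ℕ → ℕ) (e : Eqn) : Prop :=
  f e.l = tri (f e.i + f e.j) + f e.i ∧ f e.k ≤ f e.j ∧ (e.strict = true → f e.k < f e.j)

/-- all variables are smaller than `M` -/
def Eqn.lt (M : ℕ) (e : Eqn) : Prop := e.i < M ∧ e.j < M ∧ e.l < M ∧ e.k < M

/-- all equations hold -/
def Holds (es : List Eqn) (f : ℕ → ℕ) : Prop := ∀ e ∈ es, e.holds f

theorem Eqn.holds_congr {M : ℕ} {e : Eqn} (he : e.lt M) {f g : ℕ → ℕ}
    (h : ∀ v < M, g v = f v) (hf : e.holds f) : e.holds g := by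
  obtain ⟨h1, h2, h3, h4⟩ := he
  obtain ⟨h5, h6, h7⟩ := hf
  refine ⟨?_, ?_, fun hs => ?_⟩
  · rw [h _ h1, h _ h2, h _ h3, h5]
  · rw [h _ h2, h _ h4]; exact h6
  · rw [h _ h2, h _ h4]; exact h7 hs

theorem Holds.congr {M : ℕ} {es : List Eqn} (hes : ∀ e ∈ es, e.lt M) {f g : ℕ → ℕ}
    (h : ∀ v < M, g v = f v) (hf : Holds es f) : Holds es g :=
  fun e he => Eqn.holds_congr (hes e he) h (hf e he)

theorem holds_append {es es' : List Eqn} {f : ℕ → ℕ} :
    Holds (es ++ es') f ↔ Holds es f ∧ Holds es' f := by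
  constructor
  · exact fun h => ⟨fun e he => h e (List.mem_append_left _ he),
      fun e he => h e (List.mem_append_right _ he)⟩
  · rintro ⟨h1, h2⟩ e he
    rcases List.mem_append.1 he with h | h
    · exact h1 e h
    · exact h2 e h

/-- the equations `es`, with variables below `M`, express the condition `C` on the variables
below `N`; the variable `0` of the assignments is free, the variable `1` is zero. -/
structure Good (N M : ℕ) (es : List Eqn) (C : (ℕ → ℕ) → Prop) : Prop where
  le : N ≤ M
  lt : ∀ e ∈ es, e.lt M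
  sound : ∀ f : ℕ → ℕ, f 1 = 0 → Holds es f → C f
  complete : ∀ f : ℕ → ℕ, f 1 = 0 → C f → ∃ g : ℕ → ℕ, (∀ v < N, g v = f v) ∧ Holds es g

/-- `C` depends only on the variables below `N` -/
def Dep (N : ℕ) (C : (ℕ → ℕ) → Prop) : Prop :=
  ∀ f g : ℕ → ℕ, (∀ v < N, g v = f v) → C f → C g

theorem Dep.mono {N M : ℕ} (h : N ≤ M) {C : (ℕ → ℕ) → Prop} (hC : Dep N C) : Dep M C :=
  fun f g hfg => hC f g fun v hv => hfg v (hv.trans_le h)

theorem Dep.and {N : ℕ} {C C' : (ℕ → ℕ) → Prop} (hC : Dep N C) (hC' : Dep N C') :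
    Dep N fun f => C f ∧ C' f :=
  fun f g h hf => ⟨hC f g h hf.1, hC' f g h hf.2⟩

theorem Good.nil {N : ℕ} : Good N N [] fun _ => True :=
  ⟨le_rfl, by simp, fun _ _ _ => trivial, fun f _ _ => ⟨f, fun _ _ => rfl, by simp [Holds]⟩⟩

theorem Good.append {N M K : ℕ} {es es' : List Eqn} {C C' : (ℕ → ℕ) → Prop} (hN : 1 < N)
    (h : Good N M es C) (h' : Good M K es' C') (hC' : Dep N C') :
    Good N K (es ++ es') fun f => C f ∧ C' f := by
  refine ⟨h.le.trans h'.le, ?_, ?_, ?_⟩
  · intro e he
    rcases List.mem_append.1 he with h1 | h1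
    · obtain ⟨a, b, c, d⟩ := h.lt e h1
      have := h'.le
      exact ⟨by omega, by omega, by omega, by omega⟩
    · exact h'.lt e h1
  · intro f h0 hf
    rw [holds_append] at hf
    exact ⟨h.sound f h0 hf.1, h'.sound f h0 hf.2⟩
  · rintro f h0 ⟨h1, h2⟩
    obtain ⟨g, hg, hg'⟩ := h.complete f h0 h1
    have hg0 : g 1 = 0 := by rw [hg 1 hN, h0]
    obtain ⟨k, hk, hk'⟩ := h'.complete g hg0 (hC' f g hg h2)
    refine ⟨k, fun v hv => by rw [hk v (hv.trans_le h.le), hg v hv], ?_⟩
    rw [holds_append]
    exact ⟨Holds.congr h.lt hk hg', hk'⟩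

theorem dep_of {N : ℕ} {C : (ℕ → ℕ) → Prop}
    (h : ∀ f g : ℕ → ℕ, (∀ v < N, g v = f v) → (C f ↔ C g)) : Dep N C :=
  fun f g hfg => (h f g hfg).1

/-- extension of an assignment by new values from the variable `N` on -/
def ext (f : ℕ → ℕ) (N : ℕ) (vals : List ℕ) : ℕ → ℕ :=
  fun v => if v < N then f v else vals.getD (v - N) 0

theorem ext_lt {f : ℕ → ℕ} {N v : ℕ} (vals : List ℕ) (h : v < N) : ext f N vals v = f v :=
  if_pos h

theorem ext_ge (f : ℕ → ℕ) (N c : ℕ) (vals : List ℕ) : ext f N vals (N + c) = vals.getD c 0 := by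
  rw [ext, if_neg (by omega), Nat.add_sub_cancel_left]

theorem ext_ge0 (f : ℕ → ℕ) (N : ℕ) (vals : List ℕ) : ext f N vals N = vals.getD 0 0 :=
  ext_ge f N 0 vals

theorem tri_between {s m a : ℕ} (ha : a ≤ m) (h1 : tri s ≤ tri m + a)
    (h2 : tri m + a ≤ tri s + s) : s = m := by
  rcases lt_trichotomy s m with h | h | h
  · have h3 := tri_mono (Nat.succ_le_of_lt h)
    rw [Nat.succ_eq_add_one, tri] at h3
    omega
  · exact h
  · have h3 := tri_mono (Nat.succ_le_of_lt h)
    rw [Nat.succ_eq_add_one, tri] at h3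
    omega

theorem tri_eq_self {s : ℕ} (h : tri s = s) (h0 : 0 < s) : s = 1 := by
  match s, h0 with
  | 1, _ => rfl
  | s + 2, _ =>
    simp only [tri] at h
    omega

/-- equations for `x i = 1` -/
def oneEqs (i : ℕ) : List Eqn := [⟨1, i, i, 1, true⟩]

theorem good_one {N i : ℕ} (hN : 1 < N) (hi : i < N) :
    Good N N (oneEqs i) fun f => f i = 1 := by
  refine ⟨le_rfl, ?_, ?_, ?_⟩
  · intro e he
    rw [oneEqs, List.mem_singleton] at he
    subst he
    exact ⟨hN, hi, hi, hN⟩
  · intro f h0 hf
    obtain ⟨h1, -, h3⟩ := hf _ (List.mem_singleton.2 rfl)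
    simp only [h0, zero_add, add_zero] at h1 h3
    exact tri_eq_self h1.symm (h3 trivial)
  · intro f h0 hf
    refine ⟨f, fun _ _ => rfl, ?_⟩
    intro e he
    rw [oneEqs, List.mem_singleton] at he
    subst he
    refine ⟨?_, ?_, fun _ => ?_⟩
    · simp [h0, hf, tri]
    · simp [h0]
    · simp [h0, hf]

/-- equations for `x i + x j = x k` with new variables `N, ..., N + 4` -/
def addEqs (i j k N : ℕ) : List Eqn :=
  [⟨1, k, N, k, false⟩, ⟨i, j, N + 1, j, false⟩, ⟨k, 1, N + 2, 1, false⟩,
    ⟨1, N + 1, N + 3, N, false⟩, ⟨1, N + 2, N + 4, N + 1, false⟩]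

theorem good_add {N i j k : ℕ} (hN : 1 < N) (hi : i < N) (hj : j < N) (hk : k < N) :
    Good N (N + 5) (addEqs i j k N) fun f => f i + f j = f k := by
  refine ⟨by omega, ?_, ?_, ?_⟩
  · intro e he
    simp only [addEqs, List.mem_cons, List.not_mem_nil, or_false] at he
    rcases he with rfl | rfl | rfl | rfl | rfl <;>
      refine ⟨?_, ?_, ?_, ?_⟩ <;> simp only <;> omega
  · intro f h0 hf
    have h1 := hf ⟨1, k, N, k, false⟩ (by simp [addEqs])
    have h2 := hf ⟨i, j, N + 1, j, false⟩ (by simp [addEqs])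
    have h3 := hf ⟨k, 1, N + 2, 1, false⟩ (by simp [addEqs])
    have h4 := hf ⟨1, N + 1, N + 3, N, false⟩ (by simp [addEqs])
    have h5 := hf ⟨1, N + 2, N + 4, N + 1, false⟩ (by simp [addEqs])
    simp only [Eqn.holds, h0, zero_add, add_zero] at h1 h2 h3 h4 h5
    have h6 := h4.2.1
    have h7 := h5.2.1
    rw [h1.1, h2.1] at h6
    rw [h2.1, h3.1] at h7
    exact (tri_between (Nat.le_add_right _ _) h6 h7).symm
  · intro f h0 hf
    refine ⟨ext f N [tri (f k), tri (f k) + f i, tri (f k) + f k,
      tri (tri (f k) + f i), tri (tri (f k) + f k)], fun v hv => ext_lt _ hv, ?_⟩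
    intro e he
    simp only [addEqs, List.mem_cons, List.not_mem_nil, or_false] at he
    rcases he with rfl | rfl | rfl | rfl | rfl <;>
      refine ⟨?_, ?_, fun hs => ?_⟩ <;>
      simp only [ext_lt _ hN, ext_lt _ hi, ext_lt _ hj, ext_lt _ hk, ext_ge, ext_ge0, h0, hf,
        List.getD_cons_zero, List.getD_cons_succ, zero_add, add_zero, le_refl] <;>
      first
        | omega
        | exact absurd hs (by simp)

theorem dep_add {N i j k : ℕ} (hi : i < N) (hj : j < N) (hk : k < N) :
    Dep N fun f => f i + f j = f k := by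
  intro f g h hf
  rw [h i hi, h j hj, h k hk, hf]

/-- equations for `x i * x j = x k` with new variables `N, ..., N + 19` -/
def mulEqs (i j k N : ℕ) : List Eqn :=
  [⟨1, i, N + 1, i, false⟩, ⟨1, j, N + 2, j, false⟩, ⟨1, N, N + 3, N, false⟩] ++
    (addEqs i j N (N + 5) ++ (addEqs (N + 1) (N + 2) (N + 4) (N + 10) ++
      addEqs (N + 4) k (N + 3) (N + 15)))

theorem good_mul {N i j k : ℕ} (hN : 1 < N) (hi : i < N) (hj : j < N) (hk : k < N) :
    Good N (N + 20) (mulEqs i j k N) fun f => f i * f j = f k := by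
  have h1 : Good (N + 5) (N + 10) (addEqs i j N (N + 5)) fun f => f i + f j = f N :=
    good_add (by omega) (by omega) (by omega) (by omega)
  have h2 : Good (N + 10) (N + 15) (addEqs (N + 1) (N + 2) (N + 4) (N + 10))
      fun f => f (N + 1) + f (N + 2) = f (N + 4) :=
    good_add (by omega) (by omega) (by omega) (by omega)
  have h3 : Good (N + 15) (N + 20) (addEqs (N + 4) k (N + 3) (N + 15))
      fun f => f (N + 4) + f k = f (N + 3) :=
    good_add (by omega) (by omega) (by omega) (by omega)
  have h23 := h2.append (by omega) h3 (dep_add (by omega) (by omega) (by omega))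
  have h123 := h1.append (by omega) h23
    (Dep.and (dep_add (by omega) (by omega) (by omega)) (dep_add (by omega) (by omega) (by omega)))
  refine ⟨by omega, ?_, ?_, ?_⟩
  · intro e he
    rw [mulEqs, List.mem_append] at he
    rcases he with he | he
    · simp only [List.mem_cons, List.not_mem_nil, or_false] at he
      rcases he with rfl | rfl | rfl <;>
        refine ⟨?_, ?_, ?_, ?_⟩ <;> simp only <;> omega
    · exact h123.lt e he
  · intro f h0 hf
    rw [mulEqs, holds_append] at hf
    obtain ⟨hf1, hf2⟩ := hf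
    obtain ⟨a1, a2, a3⟩ := h123.sound f h0 hf2
    have b1 := hf1 ⟨1, i, N + 1, i, false⟩ (by simp)
    have b2 := hf1 ⟨1, j, N + 2, j, false⟩ (by simp)
    have b3 := hf1 ⟨1, N, N + 3, N, false⟩ (by simp)
    simp only [Eqn.holds, h0, zero_add, add_zero] at b1 b2 b3
    have b4 := b3.1
    rw [← a1, tri_add] at b4
    have c1 := b1.1
    have c2 := b2.1
    omega
  · intro f h0 hf
    set g := ext f N [f i + f j, tri (f i), tri (f j), tri (f i + f j), tri (f i) + tri (f j)]
      with hg
    have g0 : g N = f i + f j := by simp [hg, ext_ge0]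
    have g1 : g (N + 1) = tri (f i) := by simp [hg, ext_ge]
    have g2 : g (N + 2) = tri (f j) := by simp [hg, ext_ge]
    have g3 : g (N + 3) = tri (f i + f j) := by simp [hg, ext_ge]
    have g4 : g (N + 4) = tri (f i) + tri (f j) := by simp [hg, ext_ge]
    have gi : g i = f i := ext_lt _ hi
    have gj : g j = f j := ext_lt _ hj
    have gk : g k = f k := ext_lt _ hk
    have g10 : g 1 = 0 := by rw [hg, ext_lt _ hN, h0]
    obtain ⟨g', hg', hh⟩ := h123.complete g g10 (by
      refine ⟨?_, ?_, ?_⟩
      · rw [gi, gj, g0]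
      · rw [g1, g2, g4]
      · rw [g4, gk, g3, tri_add, hf])
    refine ⟨g', fun v hv => by rw [hg' v (by omega)]; exact ext_lt _ hv, ?_⟩
    rw [mulEqs, holds_append]
    refine ⟨?_, hh⟩
    intro e he
    simp only [List.mem_cons, List.not_mem_nil, or_false] at he
    rcases he with rfl | rfl | rfl <;>
      refine ⟨?_, ?_, fun hs => ?_⟩ <;>
      simp only [hg' 1 (by omega), hg' i (by omega), hg' j (by omega), hg' N (by omega),
        hg' (N + 1) (by omega), hg' (N + 2) (by omega), hg' (N + 3) (by omega), g10, gi, gj, g0,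
        g1, g2, g3, zero_add, add_zero, le_refl] <;>
      exact absurd hs (by simp)

/-- the condition on the variables `2, 3, ...` given by a list of atoms -/
def SatA (L : List MRDP.Atom) (f : ℕ → ℕ) : Prop := MRDP.Sat L fun i => f (i + 2)

/-- a finite list of atoms has finitely many variables -/
theorem exists_lt (L : List MRDP.Atom) : ∃ N, ∀ a ∈ L, a.lt N := by
  induction L with
  | nil => exact ⟨0, by simp⟩
  | cons a L ih =>
    obtain ⟨N, hN⟩ := ih
    have : ∃ M, a.lt M := by
      cases a with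
      | one i => exact ⟨i + 1, by simp [MRDP.Atom.lt]⟩
      | add i j k => exact ⟨i + j + k + 1, by simp only [MRDP.Atom.lt]; omega⟩
      | mul i j k => exact ⟨i + j + k + 1, by simp only [MRDP.Atom.lt]; omega⟩
    obtain ⟨M, hM⟩ := this
    refine ⟨max N M, fun b hb => ?_⟩
    rcases List.mem_cons.1 hb with rfl | hb
    · exact MRDP.Atom.lt_mono (le_max_right _ _) hM
    · exact MRDP.Atom.lt_mono (le_max_left _ _) (hN b hb)

theorem good_atoms (N : ℕ) : ∀ (L : List MRDP.Atom), (∀ a ∈ L, a.lt N) →
    ∀ K, N + 2 ≤ K → ∃ M es, Good K M es (SatA L) := by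
  intro L
  induction L with
  | nil =>
    intro _ K _
    refine ⟨K, [], le_rfl, by simp, ?_, ?_⟩
    · intro f _ _
      simp [SatA, MRDP.Sat]
    · intro f _ _
      exact ⟨f, fun _ _ => rfl, by simp [Holds]⟩
  | cons a L ih =>
    intro hL K hK
    have ha := hL a (List.mem_cons_self)
    have hdep : Dep K (SatA L) := by
      intro f g h hf
      refine MRDP.Sat.congr (N := N) (fun b hb => hL b (List.mem_cons_of_mem _ hb)) ?_ hf
      intro i hi
      exact (h (i + 2) (by omega)).symm
    have key : ∃ M es, K ≤ M ∧ Good K M es fun f => a.holds fun i => f (i + 2) := by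
      cases a with
      | one i =>
        simp only [MRDP.Atom.lt] at ha
        exact ⟨K, oneEqs (i + 2), le_rfl, good_one (by omega) (by omega)⟩
      | add i j k =>
        simp only [MRDP.Atom.lt] at ha
        exact ⟨K + 5, addEqs (i + 2) (j + 2) (k + 2) K, by omega,
          good_add (by omega) (by omega) (by omega) (by omega)⟩
      | mul i j k =>
        simp only [MRDP.Atom.lt] at ha
        exact ⟨K + 20, mulEqs (i + 2) (j + 2) (k + 2) K, by omega,
          good_mul (by omega) (by omega) (by omega) (by omega)⟩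
    obtain ⟨M, es, hM, hes⟩ := key
    obtain ⟨M', es', hes'⟩ := ih (fun b hb => hL b (List.mem_cons_of_mem _ hb)) M (by omega)
    refine ⟨M', es ++ es', ?_⟩
    have h1 := hes.append (by omega) hes' hdep
    refine ⟨h1.le, h1.lt, ?_, ?_⟩
    · intro f h0 hf
      obtain ⟨h2, h3⟩ := h1.sound f h0 hf
      intro b hb
      rcases List.mem_cons.1 hb with rfl | hb
      · exact h2
      · exact h3 b hb
    · intro f h0 hf
      exact h1.complete f h0 ⟨hf a List.mem_cons_self, fun b hb => hf b (List.mem_cons_of_mem _ hb)⟩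

/-- **R.e. predicates by pairing equations.** -/
theorem exists_pair_system {p : ℕ → Prop} (hp : REPred p) :
    ∃ (m a b : ℕ) (es : List Eqn), 0 < a ∧ a < m ∧ b < m ∧ a < b ∧ (∀ e ∈ es, e.lt m) ∧
      (∀ f : ℕ → ℕ, Holds es f → f b = f a + f 0 ∧ ∃ n, f 0 = n + 1 ∧ p n) ∧
      (∀ n, p n → ∃ f : ℕ → ℕ, f 0 = n + 1 ∧ Holds es f ∧ f b = f a + (n + 1) ∧ 1 ≤ f a ∧
        ∀ v < m, f v ≤ f a ∨ f b ≤ f v) := by
  obtain ⟨L, hL⟩ := MRDP.mrdp_atoms hp
  obtain ⟨N, hN⟩ := exists_lt L
  -- variables: 0 input, 1 zero, 2.. atoms, K one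
  set K := N + 3 with hK
  obtain ⟨M, es, hes⟩ := good_atoms N L hN (K + 1) (by omega)
  have hKM := hes.le
  -- x 2 + x K = x 0, x K = 1
  have h1 : Good (K + 1) (K + 1) (oneEqs K) fun f => f K = 1 := good_one (by omega) (by omega)
  have h2 : Good M (M + 5) (addEqs 2 K 0 M) fun f => f 2 + f K = f 0 :=
    good_add (by omega) (by omega) (by omega) (by omega)
  have hdep : Dep (K + 1) (SatA L) := by
    intro f g h hf
    refine MRDP.Sat.congr (N := N) hN ?_ hf
    intro i hi
    exact (h (i + 2) (by omega)).symm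
  have h3 := h1.append (by omega) (hes.append (by omega) h2
    (dep_add (by omega) (by omega) (by omega)))
    (Dep.and hdep (dep_add (by omega) (by omega) (by omega)))
  set E := oneEqs K ++ (es ++ addEqs 2 K 0 M) with hE
  -- a = M + 5, b = M + 6, auxiliary M + 7 .. M + 11, zero equation
  set A := M + 5 with hA
  refine ⟨A + 7, A, A + 1, ⟨1, 1, 1, 1, false⟩ :: (E ++ addEqs A 0 (A + 1) (A + 2)), by omega,
    by omega, by omega, by omega, ?_, ?_, ?_⟩
  · intro e he
    rcases List.mem_cons.1 he with rfl | he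
    · refine ⟨?_, ?_, ?_, ?_⟩ <;> simp only <;> omega
    rcases List.mem_append.1 he with he | he
    · obtain ⟨u1, u2, u3, u4⟩ := h3.lt e he
      exact ⟨by omega, by omega, by omega, by omega⟩
    · have h4 : Good (A + 2) (A + 2 + 5) (addEqs A 0 (A + 1) (A + 2))
        fun f => f A + f 0 = f (A + 1) := good_add (by omega) (by omega) (by omega) (by omega)
      exact h4.lt e he
  · intro f hf
    have h0 : f 1 = 0 := by
      obtain ⟨u1, -, -⟩ := hf ⟨1, 1, 1, 1, false⟩ List.mem_cons_self
      simp only at u1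
      have := le_tri (f 1 + f 1)
      omega
    have hf' : Holds (E ++ addEqs A 0 (A + 1) (A + 2)) f :=
      fun e he => hf e (List.mem_cons_of_mem _ he)
    rw [holds_append] at hf'
    have h4 : Good (A + 2) (A + 2 + 5) (addEqs A 0 (A + 1) (A + 2))
        fun f => f A + f 0 = f (A + 1) := good_add (by omega) (by omega) (by omega) (by omega)
    obtain ⟨u1, u2, u3⟩ := h3.sound f h0 hf'.1
    refine ⟨(h4.sound f h0 hf'.2).symm, ?_⟩
    obtain ⟨n, hn⟩ : ∃ n, f 0 = n + 1 := ⟨f 2, by rw [← u3, u1]⟩
    refine ⟨n, hn, ?_⟩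
    rw [hL]
    exact ⟨fun i => f (i + 2), by change f 2 = n; omega, u2⟩
  · intro n hn
    rw [hL] at hn
    obtain ⟨x, hx0, hx⟩ := hn
    -- first assignment
    set f : ℕ → ℕ := fun v => if v = 0 then n + 1 else if v = 1 then 0 else
      if v = K then 1 else x (v - 2) with hf
    have f0 : f 0 = n + 1 := rfl
    have f1 : f 1 = 0 := rfl
    have fK : f K = 1 := by
      simp only [hf]
      rw [if_neg (by omega), if_neg (by omega)]
      simp
    have fi : ∀ i < N, f (i + 2) = x i := by
      intro i hi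
      simp only [hf]
      rw [if_neg (by omega), if_neg (by omega), if_neg (by omega), Nat.add_sub_cancel]
    have f2 : f 2 = n := by
      simp only [hf]
      rw [if_neg (by omega), if_neg (by omega), if_neg (by omega)]
      exact hx0
    have hsat : SatA L f := by
      refine MRDP.Sat.congr (N := N) hN ?_ hx
      intro i hi
      exact (fi i hi).symm
    obtain ⟨g, hg, hgE⟩ := h3.complete f f1 ⟨fK, hsat, by rw [f2, fK, f0]⟩
    have g0 : g 0 = n + 1 := by rw [hg 0 (by omega), f0]
    have g1 : g 1 = 0 := by rw [hg 1 (by omega), f1]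
    -- a bound for the variables below A
    obtain ⟨B, hB⟩ : ∃ B, ∀ v < A, g v ≤ B :=
      ⟨(Finset.range A).sup g, fun v hv => Finset.le_sup (Finset.mem_range.2 hv)⟩
    set b := B + 1 + (n + 1) with hb
    set g' := ext g A [B + 1, b, tri b, tri b + (B + 1), tri b + b, tri (tri b + (B + 1)),
      tri (tri b + b)] with hg'
    have e0 : g' A = B + 1 := by simp [hg', ext_ge0]
    have e1 : g' (A + 1) = b := by simp [hg', ext_ge]
    have e2 : g' (A + 2) = tri b := by simp [hg', ext_ge]
    have e3 : g' (A + 3) = tri b + (B + 1) := by simp [hg', ext_ge]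
    have e4 : g' (A + 4) = tri b + b := by simp [hg', ext_ge]
    have e5 : g' (A + 5) = tri (tri b + (B + 1)) := by simp [hg', ext_ge]
    have e6 : g' (A + 6) = tri (tri b + b) := by simp [hg', ext_ge]
    have elt : ∀ v < A, g' v = g v := fun v hv => ext_lt _ hv
    have g'0 : g' 0 = n + 1 := by rw [elt 0 (by omega), g0]
    have g'1 : g' 1 = 0 := by rw [elt 1 (by omega), g1]
    refine ⟨g', g'0, ?_, ?_, ?_, ?_⟩
    · intro e he
      rcases List.mem_cons.1 he with rfl | he
      · refine ⟨?_, le_rfl, fun hs => absurd hs (by simp)⟩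
        simp [g'1, tri]
      rcases List.mem_append.1 he with he | he
      · exact Eqn.holds_congr (h3.lt e he) elt (hgE e he)
      · simp only [addEqs, List.mem_cons, List.not_mem_nil, or_false] at he
        rcases he with rfl | rfl | rfl | rfl | rfl <;>
          refine ⟨?_, ?_, fun hs => ?_⟩ <;>
          simp only [e0, e1, e2, e3, e4, e5, e6, g'0, g'1, zero_add, add_zero, le_refl,
            show A + 2 + 1 = A + 3 by omega, show A + 2 + 2 = A + 4 by omega,
            show A + 2 + 3 = A + 5 by omega, show A + 2 + 4 = A + 6 by omega] <;>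
          first
            | omega
            | exact absurd hs (by simp)
            | (rw [show B + 1 + (n + 1) = b from rfl])
    · rw [e0, e1]
    · rw [e0]; omega
    · intro v hv
      have hb2 := le_tri b
      have hb3 := le_tri (tri b + (B + 1))
      have hb4 := le_tri (tri b + b)
      by_cases h : v < A
      · left
        rw [elt v h, e0]
        have := hB v h
        omega
      · have : v = A ∨ v = A + 1 ∨ v = A + 2 ∨ v = A + 3 ∨ v = A + 4 ∨ v = A + 5 ∨
          v = A + 6 := by omega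
        rcases this with rfl | rfl | rfl | rfl | rfl | rfl | rfl
        · exact Or.inl le_rfl
        all_goals
          right
          first
            | exact le_rfl
            | (simp only [e1, e2, e3, e4, e5, e6]; omega)

end Pool.Agent.W_59b51d_h42
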