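import Pool.Agent.W_59b51d_u18.Defs

/-!
# One identity

Finitely many multilinear identities are equivalent to one identity: the sum of the identities
with disjoint variables. So the undecidability of the class of varieties in which all finitely
presented algebras have solvable word problem holds for varieties given by one identity.
-/

namespace Pool.Agent.W_59b51d_h42

open Pool.Agent.W_59b51d_h18 (Poly code Multilinear vars)
open Pool.Agent.W_59b51d_u18 (MId Sat2 Vanishes2 Solvable2 AllSolvable metab mcode lcode)

/-- The algebra `A` satisfies the identity `f = 0`. -/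
def Satisfies {F : Type} [Field F] (A : Type) [NonUnitalNonAssocRing A] [Module F A]
    (f : Poly F ℕ) : Prop :=
  ∀ v : ℕ → A, f.eval v = 0

/-- The polynomial `w` vanishes in the algebra which is presented by the generators `X` and the
relators `r` in the variety defined by the identity `f = 0`. -/
def Vanishes1 (F : Type) [Field F] (f : Poly F ℕ) {X : Type} (r : List (Poly F X))
    (w : Poly F X) : Prop :=
  ∀ (A : Type) [NonUnitalNonAssocRing A] [Module F A] [IsScalarTower F A A]
    [SMulCommClass F A A], Satisfies A f → ∀ a : X → A, (∀ p ∈ r, p.eval a = 0) → w.eval a = 0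

/-- The algebra presented by the generators `0, …, n - 1` and the relators `r` in the variety
defined by the identity `f = 0` has solvable word problem. -/
def Solvable1 (F : Type) [Field F] [Primcodable F] (f : Poly F ℕ) {n : ℕ}
    (r : List (Poly F (Fin n))) : Prop :=
  ∃ g : List (F × ℕ) → Bool, Computable g ∧
    ∀ w : Poly F (Fin n), g (w.map fun q => (q.1, code q.2)) = true ↔ Vanishes1 F f r w

/-- Every finitely presented algebra of the variety `f = 0` has solvable word problem. -/
def AllSolvable1 (F : Type) [Field F] [Primcodable F] (f : Poly F ℕ) : Prop :=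
  ∀ (n : ℕ) (r : List (Poly F (Fin n))), Solvable1 F f r

/-- The code of a polynomial in the variables `0, 1, 2, …`. -/
def pcode {F : Type} (f : Poly F ℕ) : List (F × ℕ) := f.map fun q => (q.1, mcode q.2)

/-! ### Renaming of variables -/

/-- The monomial with the variables `x` replaced by `⟨i, x⟩`. -/
def ren (i : ℕ) : FreeMagma ℕ → FreeMagma ℕ
  | .of x => .of (Nat.pair i x)
  | .mul s t => .mul (ren i s) (ren i t)

theorem lift_ren {A : Type} [Mul A] (v : ℕ → A) (i : ℕ) (s : FreeMagma ℕ) :
    FreeMagma.lift v (ren i s) = FreeMagma.lift (fun x => v (Nat.pair i x)) s := by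
  induction s with
  | ih1 x => rfl
  | ih2 s t hs ht =>
    change FreeMagma.lift v (ren i s) * FreeMagma.lift v (ren i t) = _
    rw [hs, ht]
    rfl

theorem lift_zero {A : Type} [NonUnitalNonAssocRing A] (s : FreeMagma ℕ) :
    FreeMagma.lift (fun _ : ℕ => (0 : A)) s = 0 := by
  induction s with
  | ih1 x => rfl
  | ih2 s t hs ht =>
    change FreeMagma.lift (fun _ : ℕ => (0 : A)) s * FreeMagma.lift (fun _ : ℕ => (0 : A)) t = 0
    rw [hs, zero_mul]

theorem vars_ren (i : ℕ) (s : FreeMagma ℕ) : vars (ren i s) = (vars s).map (Nat.pair i) := by
  induction s with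
  | ih1 x => rfl
  | ih2 s t hs ht =>
    change vars (ren i s) ++ vars (ren i t) = (vars s ++ vars t).map (Nat.pair i)
    rw [hs, ht, List.map_append]

theorem multilinear_ren {i : ℕ} {s : FreeMagma ℕ} (h : Multilinear s) :
    Multilinear (ren i s) := by
  unfold Multilinear
  rw [vars_ren]
  exact List.Nodup.map (fun x y hxy => (Nat.pair_eq_pair.1 hxy).2) h

/-! ### The sum of the identities of a list -/

/-- The identity number `i` as a polynomial. -/
def block (F : Type) [Field F] (i : ℕ) (p : MId) : Poly F ℕ :=
  (1, ren i p.1) :: (p.2.map fun t => ((-1 : F), ren i t)).toList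

/-- The sum of the identities with the numbers `i, i + 1, …`. -/
def joinFrom (F : Type) [Field F] : ℕ → List MId → Poly F ℕ
  | _, [] => []
  | i, p :: T => block F i p ++ joinFrom F (i + 1) T

section

variable {F : Type} [Field F] {A : Type} [NonUnitalNonAssocRing A] [Module F A]

theorem eval_append {X : Type} (a : X → A) (p q : Poly F X) :
    Poly.eval a (p ++ q) = p.eval a + q.eval a := by
  unfold Poly.eval
  rw [List.map_append, List.sum_append]

/-- The value of an identity. -/
def bval (w : ℕ → A) (p : MId) : A :=
  FreeMagma.lift w p.1 - (p.2.map (FreeMagma.lift w)).getD 0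

theorem holds_iff (p : MId) : MId.Holds A p ↔ ∀ w : ℕ → A, bval w p = 0 := by
  obtain ⟨s, o⟩ := p
  cases o with
  | none => simp [MId.Holds, bval]
  | some t => simp [MId.Holds, bval, sub_eq_zero]

theorem eval_block (i : ℕ) (p : MId) (v : ℕ → A) :
    (block F i p).eval v = bval (fun x => v (Nat.pair i x)) p := by
  obtain ⟨s, o⟩ := p
  cases o with
  | none => simp [block, Poly.eval, bval, lift_ren]
  | some t => simp [block, Poly.eval, bval, lift_ren, sub_eq_add_neg]

theorem bval_zero (p : MId) : bval (fun _ : ℕ => (0 : A)) p = 0 := by
  obtain ⟨s, o⟩ := p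
  cases o with
  | none => simp [bval, lift_zero]
  | some t => simp [bval, lift_zero]

theorem eval_join_of_sat (T : List MId) (h : Sat2 A T) (i : ℕ) (v : ℕ → A) :
    (joinFrom F i T).eval v = 0 := by
  induction T generalizing i with
  | nil => rfl
  | cons p T ih =>
    rw [joinFrom, eval_append, eval_block, (holds_iff p).1 (h p List.mem_cons_self),
      ih (fun q hq => h q (List.mem_cons_of_mem _ hq)), add_zero]

/-- The assignment which is `w` on the variables with number `j` and `0` elsewhere. -/
def single (j : ℕ) (w : ℕ → A) : ℕ → A := fun n => if n.unpair.1 = j then w n.unpair.2 else 0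

theorem single_self (j : ℕ) (w : ℕ → A) : (fun x => single j w (Nat.pair j x)) = w := by
  funext x
  simp [single]

theorem single_ne {i j : ℕ} (h : i ≠ j) (w : ℕ → A) :
    (fun x => single j w (Nat.pair i x)) = fun _ => 0 := by
  funext x
  simp [single, h]

theorem eval_join_lt (T : List MId) {i j : ℕ} (h : j < i) (w : ℕ → A) :
    (joinFrom F i T).eval (single j w) = 0 := by
  induction T generalizing i with
  | nil => rfl
  | cons p T ih =>
    rw [joinFrom, eval_append, eval_block, single_ne (by omega), bval_zero, ih (by omega),
      add_zero]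

theorem eval_join_single (T : List MId) (i k : ℕ) (hk : k < T.length) (w : ℕ → A) :
    (joinFrom F i T).eval (single (i + k) w) = bval w T[k] := by
  induction T generalizing i k with
  | nil => simp at hk
  | cons p T ih =>
    rw [joinFrom, eval_append, eval_block]
    cases k with
    | zero =>
      rw [add_zero, single_self, eval_join_lt T (by omega), add_zero]
      rfl
    | succ k =>
      have h := ih (i + 1) k (by simpa using hk)
      rw [single_ne (by omega), bval_zero, zero_add,
        show i + (k + 1) = i + 1 + k by omega, h]
      rfl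

/-- The sum of the identities defines the same variety. -/
theorem satisfies_join (T : List MId) (i : ℕ) : Satisfies A (joinFrom F i T) ↔ Sat2 A T := by
  constructor
  · intro h p hp
    obtain ⟨k, hk, rfl⟩ := List.getElem_of_mem hp
    rw [holds_iff]
    intro w
    rw [← eval_join_single (F := F) T i k hk w]
    exact h _
  · exact fun h v => eval_join_of_sat T h i v

end

theorem vanishes_join (F : Type) [Field F] (T : List MId) (i : ℕ) {X : Type}
    (r : List (Poly F X)) (w : Poly F X) :
    Vanishes1 F (joinFrom F i T) r w ↔ Vanishes2 F T r w := by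
  constructor
  · intro h A _ _ _ _ hA
    exact h A ((satisfies_join T i).2 hA)
  · intro h A _ _ _ _ hA
    exact h A ((satisfies_join T i).1 hA)

theorem allSolvable_join (F : Type) [Field F] [Primcodable F] (T : List MId) (i : ℕ) :
    AllSolvable1 F (joinFrom F i T) ↔ AllSolvable F T := by
  unfold AllSolvable1 AllSolvable Solvable1 Solvable2
  simp only [vanishes_join]

/-! ### Codes -/

/-- Renaming of variables on the codes. -/
def recode (i c : ℕ) : ℕ :=
  if c % 2 = 0 then 2 * Nat.pair i (c / 2)
  else 2 * Nat.pair (recode i (c / 2).unpair.1) (recode i (c / 2).unpair.2) + 1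
termination_by c
decreasing_by
  · have := Nat.unpair_left_le (c / 2)
    omega
  · have := Nat.unpair_right_le (c / 2)
    omega

theorem recode_even (i x : ℕ) : recode i (2 * x) = 2 * Nat.pair i x := by
  rw [recode, if_pos (by omega), Nat.mul_div_cancel_left x (by norm_num)]

theorem recode_odd (i a b : ℕ) :
    recode i (2 * Nat.pair a b + 1) = 2 * Nat.pair (recode i a) (recode i b) + 1 := by
  rw [recode, if_neg (by omega), show (2 * Nat.pair a b + 1) / 2 = Nat.pair a b by omega,
    Nat.unpair_pair]

theorem mcode_ren (i : ℕ) (s : FreeMagma ℕ) : mcode (ren i s) = recode i (mcode s) := by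
  induction s with
  | ih1 x => exact (recode_even i x).symm
  | ih2 s t hs ht =>
    change 2 * Nat.pair (mcode (ren i s)) (mcode (ren i t)) + 1 =
      recode i (2 * Nat.pair (mcode s) (mcode t) + 1)
    rw [recode_odd, hs, ht]

/-- One step of the course-of-values recursion for `recode`. -/
def recodeStep (i : ℕ) (l : List ℕ) : ℕ :=
  if l.length % 2 = 0 then 2 * Nat.pair i (l.length / 2)
  else 2 * Nat.pair (l.getD (l.length / 2).unpair.1 0) (l.getD (l.length / 2).unpair.2 0) + 1

theorem primrec_recode : Primrec₂ recode := by
  have hlen : Primrec fun q : ℕ × List ℕ => q.2.length := Primrec.list_length.comp Primrec.snd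
  have hhalf : Primrec fun q : ℕ × List ℕ => q.2.length / 2 :=
    Primrec.nat_div.comp hlen (Primrec.const 2)
  have hstep : Primrec fun q : ℕ × List ℕ => recodeStep q.1 q.2 := by
    unfold recodeStep
    refine Primrec.ite (Primrec.eq.comp (Primrec.nat_mod.comp hlen (Primrec.const 2))
      (Primrec.const 0)) ?_ ?_
    · exact Primrec.nat_mul.comp (Primrec.const 2)
        (Primrec₂.natPair.comp Primrec.fst hhalf)
    · refine Primrec.succ.comp (Primrec.nat_mul.comp (Primrec.const 2)
        (Primrec₂.natPair.comp ?_ ?_))
      · exact (Primrec.list_getD 0).comp Primrec.snd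
          (Primrec.fst.comp (Primrec.unpair.comp hhalf))
      · exact (Primrec.list_getD 0).comp Primrec.snd
          (Primrec.snd.comp (Primrec.unpair.comp hhalf))
  refine Primrec.nat_strong_rec recode (g := fun i l => some (recodeStep i l))
    (Primrec.option_some.comp hstep) ?_
  intro i n
  congr 1
  unfold recodeStep
  rw [List.length_map, List.length_range]
  rw [recode]
  by_cases h : n % 2 = 0
  · rw [if_pos h, if_pos h]
  · rw [if_neg h, if_neg h]
    have h1 := Nat.unpair_left_le (n / 2)
    have h2 := Nat.unpair_right_le (n / 2)
    rw [List.getD_eq_getElem _ _ (by rw [List.length_map, List.length_range]; omega),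
      List.getD_eq_getElem _ _ (by rw [List.length_map, List.length_range]; omega)]
    simp

/-- The codes of the terms of one identity. -/
def blockCode (F : Type) [Field F] (i : ℕ) (p : ℕ × Option ℕ) : List (F × ℕ) :=
  (1, recode i p.1) :: (p.2.map fun c => ((-1 : F), recode i c)).toList

/-- The codes of the terms of the sum of the identities. -/
def joinCode (F : Type) [Field F] : ℕ → List (ℕ × Option ℕ) → List (F × ℕ)
  | _, [] => []
  | i, p :: T => blockCode F i p ++ joinCode F (i + 1) T

theorem pcode_join (F : Type) [Field F] (i : ℕ) (T : List MId) :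
    pcode (joinFrom F i T) = joinCode F i (lcode T) := by
  induction T generalizing i with
  | nil => rfl
  | cons p T ih =>
    have h1 : pcode (block F i p) = blockCode F i (mcode p.1, p.2.map mcode) := by
      obtain ⟨s, o⟩ := p
      cases o with
      | none => simp [pcode, block, blockCode, mcode_ren]
      | some t => simp [pcode, block, blockCode, mcode_ren]
    have h2 : pcode (joinFrom F i (p :: T)) = pcode (block F i p) ++
        pcode (joinFrom F (i + 1) T) := by
      rw [joinFrom]
      exact List.map_append
    rw [h2, h1, ih]
    rfl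

/-- The fold which computes `joinCode`. -/
def joinFold (F : Type) [Field F] (L : List (ℕ × Option ℕ)) (st : ℕ × List (F × ℕ)) :
    ℕ × List (F × ℕ) :=
  L.foldl (fun st p => (st.1 + 1, st.2 ++ blockCode F st.1 p)) st

theorem joinFold_eq (F : Type) [Field F] (L : List (ℕ × Option ℕ)) (i : ℕ)
    (acc : List (F × ℕ)) :
    joinFold F L (i, acc) = (i + L.length, acc ++ joinCode F i L) := by
  induction L generalizing i acc with
  | nil => simp [joinFold, joinCode]
  | cons p L ih =>
    change joinFold F L (i + 1, acc ++ blockCode F i p) = _
    rw [ih, joinCode, List.append_assoc, List.length_cons]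
    congr 1
    omega

theorem primrec_blockCode (F : Type) [Field F] [Primcodable F] :
    Primrec₂ (blockCode F) := by
  unfold blockCode
  refine Primrec.list_cons.comp (Primrec.pair (Primrec.const 1)
    (primrec_recode.comp Primrec.fst (Primrec.fst.comp Primrec.snd)))
    (Primrec.optionToList.comp (Primrec.option_map (Primrec.snd.comp Primrec.snd) ?_))
  exact Primrec.pair (Primrec.const (-1))
    (primrec_recode.comp (Primrec.fst.comp Primrec.fst) Primrec.snd)

theorem primrec_joinCode (F : Type) [Field F] [Primcodable F] (i : ℕ) :
    Primrec (joinCode F i) := by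
  have h : Primrec fun L : List (ℕ × Option ℕ) => joinFold F L (i, []) := by
    unfold joinFold
    refine Primrec.list_foldl Primrec.id (Primrec.const (i, []))
      (h := fun _ q => (q.1.1 + 1, q.1.2 ++ blockCode F q.1.1 q.2)) ?_
    exact Primrec.pair (Primrec.succ.comp (Primrec.fst.comp (Primrec.fst.comp Primrec.snd)))
      (Primrec.list_append.comp (Primrec.snd.comp (Primrec.fst.comp Primrec.snd))
        ((primrec_blockCode F).comp (Primrec.fst.comp (Primrec.fst.comp Primrec.snd))
          (Primrec.snd.comp Primrec.snd)))
  refine (Primrec.snd.comp h).of_eq fun L => ?_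
  rw [joinFold_eq]
  simp

end Pool.Agent.W_59b51d_h42
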