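import Pool.Agent.W_59b51d_h42.OneIdentity
import Pool.Agent.W_59b51d_u18.Main

/-!
# Undecidability for varieties given by one identity
-/

namespace Pool.Agent.W_59b51d_h42

open Pool.Agent.W_59b51d_h18 (Poly code Multilinear vars)
open Pool.Agent.W_59b51d_u18

/-- The polynomial `f` has at most `n` terms, all its coefficients are `1` or `-1`, all its
monomials are multilinear, and the identity `(x y) (z t) = 0` follows from `f = 0`. -/
structure Special (F : Type) [Field F] (n : ℕ) (f : Poly F ℕ) : Prop where
  len : f.length ≤ n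
  coef : ∀ q ∈ f, q.1 = 1 ∨ q.1 = -1
  mult : ∀ q ∈ f, Multilinear q.2
  metab : ∀ (A : Type) [NonUnitalNonAssocRing A] [Module F A], Satisfies A f →
    ∀ a b c d : A, (a * b) * (c * d) = 0

theorem block_mem {F : Type} [Field F] {i : ℕ} {p : MId} (hp : p.Multilin) {q : F × FreeMagma ℕ}
    (hq : q ∈ block F i p) : (q.1 = 1 ∨ q.1 = -1) ∧ Multilinear q.2 := by
  obtain ⟨s, o⟩ := p
  unfold block at hq
  rcases List.mem_cons.1 hq with rfl | hq
  · exact ⟨Or.inl rfl, multilinear_ren hp.1⟩
  · cases o with
    | none => simp at hq
    | some t =>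
      simp only [Option.map_some, Option.toList_some, List.mem_singleton] at hq
      subst hq
      exact ⟨Or.inr rfl, multilinear_ren (hp.2 t rfl)⟩

theorem join_mem {F : Type} [Field F] {T : List MId} (hT : ∀ p ∈ T, p.Multilin) {i : ℕ}
    {q : F × FreeMagma ℕ} (hq : q ∈ joinFrom F i T) :
    (q.1 = 1 ∨ q.1 = -1) ∧ Multilinear q.2 := by
  induction T generalizing i with
  | nil => simp [joinFrom] at hq
  | cons p T ih =>
    rw [joinFrom, List.mem_append] at hq
    rcases hq with hq | hq
    · exact block_mem (hT p List.mem_cons_self) hq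
    · exact ih (fun p' hp' => hT p' (List.mem_cons_of_mem _ hp')) hq

theorem join_length (F : Type) [Field F] (T : List MId) (i : ℕ) :
    (joinFrom F i T).length ≤ 2 * T.length := by
  induction T generalizing i with
  | nil => simp [joinFrom]
  | cons p T ih =>
    rw [joinFrom, List.length_append, List.length_cons]
    have h1 := ih (i + 1)
    have h2 : (block F i p).length ≤ 2 := by
      obtain ⟨s, o⟩ := p
      cases o <;> simp [block]
    omega

theorem special_join {F : Type} [Field F] {T : List MId} (hm : metab ∈ T)
    (hT : ∀ p ∈ T, p.Multilin) (i : ℕ) : Special F (2 * T.length) (joinFrom F i T) where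
  len := join_length F T i
  coef := fun _ hq => (join_mem hT hq).1
  mult := fun _ hq => (join_mem hT hq).2
  metab := by
    intro A _ _ h a b c d
    have h1 : Sat2 A T := (satisfies_join (F := F) T i).1 h
    have h2 := h1 metab hm fun n => if n = 0 then a else if n = 1 then b else
      if n = 2 then c else d
    simpa [metab] using h2

/-- The family of `exists_family` has lists of bounded length. -/
theorem exists_family_bounded : ∃ (p : ℕ → Prop) (T : ℕ → List MId) (blk : Wd) (n0 : ℕ),
    REPred p ∧ ¬ ComputablePred p ∧ (Computable fun k => lcode (T k)) ∧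
    (∀ k, metab ∈ T k ∧ (∀ q ∈ T k, q.Multilin) ∧ (T k).length = n0) ∧
    (∀ (F : Type) [Field F] [Primcodable F] (k : ℕ), ¬ p k →
      ¬ Solvable2 F (T k) [rel1 F blk]) ∧
    ∀ (F : Type) [Field F] [Primcodable F] (_ : Computable₂ fun a b : F => a + b)
      (_ : Computable₂ fun a b : F => a * b) (k : ℕ), p k → AllSolvable F (T k) := by
  obtain ⟨p, hp, hnc⟩ := MRDP.exists_re_not_computable
  obtain ⟨R, Z0, fam, blk, al, be, hblk, hlen, hgood, hsafe, hzero⟩ := exists_system hp
  refine ⟨p, fun k => TL R (Zk Z0 fam blk k), blk, fam.length + Z0.length + R.length + 1, hp, hnc,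
    computable_TL R Z0 fam blk, ?_, ?_, ?_⟩
  · intro k
    refine ⟨List.mem_cons_self, fun q hq => ?_, ?_⟩
    · rcases List.mem_cons.1 hq with rfl | hq
      · refine ⟨?_, fun t ht => ?_⟩
        · simp [metab, Multilinear, vars]
        · simp [metab] at ht
      · rcases List.mem_append.1 hq with hq | hq
        · obtain ⟨z, _, rfl⟩ := List.mem_map.1 hq
          exact ⟨multilinear_mw z, fun t ht => by simp at ht⟩
        · obtain ⟨u, _, rfl⟩ := List.mem_map.1 hq
          refine ⟨multilinear_mw _, fun t ht => ?_⟩
          simp only [Option.mem_def, Option.some.injEq] at ht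
          rw [← ht]
          exact multilinear_mw _
    · simp only [TL, Zk, List.length_cons, List.length_append, List.length_map]
  · intro F _ _ k hk
    exact not_solvable R (Zk Z0 fam blk k) hlen blk al be hblk hnc
      (fun m hm => hsafe k m hk hm) (fun m hm => hzero k m hm) F
  · intro F _ _ hadd hmul k hk
    obtain ⟨N, hN⟩ := hgood k hk
    exact allSolvable_of_padded R _ hlen N hN F hadd hmul

/-- **One identity.** There are a number `n` and a word `blk` such that over every computable
field `F` no algorithm separates, among the polynomials `f` which are sums of at most `n`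
multilinear monomials with signs and imply `(x y) (z t) = 0`, those for which all finitely
presented algebras of the variety `f = 0` have solvable word problem from those for which the
algebra of this variety with two generators and the relator `rel1 F blk` has unsolvable word
problem. Also no recursively enumerable set contains the latter and none of the former. -/
theorem one_identity : ∃ (n : ℕ) (blk : Wd), ∀ (F : Type) [Field F] [Primcodable F],
    (Computable₂ fun a b : F => a + b) → (Computable₂ fun a b : F => a * b) →
    (¬ ∃ g : List (F × ℕ) → Bool, Computable g ∧ ∀ f : Poly F ℕ, Special F n f →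
      (AllSolvable1 F f → g (pcode f) = true) ∧
      (¬ Solvable1 F f [rel1 F blk] → g (pcode f) = false)) ∧
    (¬ ∃ P : List (F × ℕ) → Prop, REPred P ∧ ∀ f : Poly F ℕ, Special F n f →
      (AllSolvable1 F f → ¬ P (pcode f)) ∧ (¬ Solvable1 F f [rel1 F blk] → P (pcode f))) := by
  obtain ⟨p, T, blk, n0, hre, hnc, hT, hm, hbad, hgood⟩ := exists_family_bounded
  refine ⟨2 * n0, blk, ?_⟩
  intro F _ _ hadd hmul
  have hc : Computable fun k => pcode (joinFrom F 0 (T k)) :=
    ((primrec_joinCode F 0).to_comp.comp hT).of_eq fun k => (pcode_join F 0 (T k)).symm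
  have hs : ∀ k, Special F (2 * n0) (joinFrom F 0 (T k)) := by
    intro k
    have h := special_join (F := F) (hm k).1 (hm k).2.1 0
    rw [(hm k).2.2] at h
    exact h
  have hall : ∀ k, p k → AllSolvable1 F (joinFrom F 0 (T k)) := fun k hk =>
    (allSolvable_join F (T k) 0).2 (hgood F hadd hmul k hk)
  have hone : ∀ k, ¬ p k → ¬ Solvable1 F (joinFrom F 0 (T k)) [rel1 F blk] := by
    intro k hk h
    apply hbad F k hk
    obtain ⟨g, hg, h⟩ := h
    exact ⟨g, hg, fun w => (h w).trans (vanishes_join F (T k) 0 _ w)⟩
  constructor
  · rintro ⟨g, hg, h⟩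
    apply hnc
    rw [ComputablePred.computable_iff]
    refine ⟨fun k => g (pcode (joinFrom F 0 (T k))), hg.comp hc, ?_⟩
    funext k
    rw [eq_iff_iff]
    constructor
    · intro hk
      exact (h _ (hs k)).1 (hall k hk)
    · intro hk
      by_contra hpk
      have h1 := (h _ (hs k)).2 (hone k hpk)
      have h2 : g (pcode (joinFrom F 0 (T k))) = true := hk
      rw [h1] at h2
      exact absurd h2 (by simp)
  · rintro ⟨P, hP, h⟩
    apply hnc
    refine ComputablePred.computable_iff_re_compl_re'.2 ⟨hre, ?_⟩
    have h2 : REPred fun k => P (pcode (joinFrom F 0 (T k))) := Partrec.comp hP hc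
    refine h2.of_eq fun k => ?_
    constructor
    · intro h3 hk
      exact (h _ (hs k)).1 (hall k hk) h3
    · intro hk
      exact (h _ (hs k)).2 (hone k hk)

/-- There is no algorithm which decides, given one polynomial `f`, whether all finitely presented
algebras of the variety `f = 0` have solvable word problem. -/
theorem one_undecidable : ∃ n : ℕ, ∀ (F : Type) [Field F] [Primcodable F],
    (Computable₂ fun a b : F => a + b) → (Computable₂ fun a b : F => a * b) →
    ¬ ∃ g : List (F × ℕ) → Bool, Computable g ∧ ∀ f : Poly F ℕ, Special F n f →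
      (g (pcode f) = true ↔ AllSolvable1 F f) := by
  obtain ⟨n, blk, h⟩ := one_identity
  refine ⟨n, fun F _ _ hadd hmul => ?_⟩
  rintro ⟨g, hg, hgf⟩
  apply (h F hadd hmul).1
  refine ⟨g, hg, fun f hf => ⟨(hgf f hf).2, fun hns => ?_⟩⟩
  by_contra hne
  exact hns ((hgf f hf).1 (by simpa using hne) 2 _)

/-- The polynomials `f` for which some finitely presented algebra of the variety `f = 0` has
unsolvable word problem do not form a recursively enumerable set. -/
theorem one_not_re : ∃ n : ℕ, ∀ (F : Type) [Field F] [Primcodable F],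
    (Computable₂ fun a b : F => a + b) → (Computable₂ fun a b : F => a * b) →
    ¬ ∃ P : List (F × ℕ) → Prop, REPred P ∧ ∀ f : Poly F ℕ, Special F n f →
      (P (pcode f) ↔ ¬ AllSolvable1 F f) := by
  obtain ⟨n, blk, h⟩ := one_identity
  refine ⟨n, fun F _ _ hadd hmul => ?_⟩
  rintro ⟨P, hP, hPf⟩
  apply (h F hadd hmul).2
  exact ⟨P, hP, fun f hf => ⟨fun ha hPx => (hPf f hf).1 hPx ha,
    fun hns => (hPf f hf).2 fun ha => hns (ha 2 _)⟩⟩

end Pool.Agent.W_59b51d_h42
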